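import Pool.Agent.Q246.Cube32

set_option autoImplicit false

/-!
# MP_abc6c1_co, Q1 : the cube map on the field with 32 elements
-/

namespace Pool.Agent.Results.MP_abc6c1_co.CubeFails

open Finset

/-- `f` is almost perfect nonlinear (on a field of characteristic 2). -/
def APN {K : Type} [Field K] (f : K → K) : Prop :=
  ∀ a b : K, a ≠ 0 → {x : K | f (x + a) + f x = b}.ncard ≤ 2

/-- The number of representations of `g` as a difference of two elements of `R`. -/
noncomputable def reps {G : Type} [AddCommGroup G] (R : Set G) (g : G) : ℕ :=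
  {p : G × G | p.1 ∈ R ∧ p.2 ∈ R ∧ p.1 - p.2 = g}.ncard

/-- `R` is a relative `(m, u, k, l)` difference set in the finite group `G` relative to the
subgroup `N`. -/
def IsRDS {G : Type} [AddCommGroup G] (R : Set G) (N : AddSubgroup G) (m u k l : ℕ) : Prop :=
  Nat.card G = m * u ∧ Nat.card N = u ∧ R.ncard = k ∧
    (∀ g : G, g ∉ N → reps R g = l) ∧ (∀ g : G, g ∈ N → g ≠ 0 → reps R g = 0)

/-- The image of `f` is a nontrivial relative difference set relative to some subgroup. -/
def GivesRDS {K : Type} [Field K] (f : K → K) : Prop :=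
  ∃ (N : AddSubgroup K) (m u k l : ℕ), IsRDS (Set.range f) N m u k l ∧ 2 ≤ k ∧ k + 2 ≤ m * u

/-- Affine maps over the prime field: an additive map plus a constant. -/
def IsAffine {K : Type} [Field K] (A : K → K) : Prop :=
  ∃ (L : K →+ K) (c : K), ∀ x, A x = L x + c

/-- `g = A ∘ f ∘ B + C` with affine permutations `A`, `B` and an affine map `C`. -/
def EAEquivalent {K : Type} [Field K] (f g : K → K) : Prop :=
  ∃ A B C : K → K, IsAffine A ∧ Function.Bijective A ∧ IsAffine B ∧ Function.Bijective B ∧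
    IsAffine C ∧ ∀ x, g x = A (f (B x)) + C x

variable {K : Type} [Field K] [Fintype K]

lemma cube_apn [CharP K 2] : APN (fun x : K => x ^ 3) := by
  classical
  intro a b ha
  have h2 : (2 : K) = 0 := CharTwo.two_eq_zero
  rcases Set.eq_empty_or_nonempty {x : K | (x + a) ^ 3 + x ^ 3 = b} with h | ⟨x0, hx0⟩
  · show {x : K | (x + a) ^ 3 + x ^ 3 = b}.ncard ≤ 2
    rw [h, Set.ncard_empty]
    norm_num
  · have hsub : {x : K | (x + a) ^ 3 + x ^ 3 = b} ⊆ {x0, x0 + a} := by
      intro x hx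
      have h3 : (x + a) ^ 3 + x ^ 3 = b := hx
      have h4 : (x0 + a) ^ 3 + x0 ^ 3 = b := hx0
      have h5 : a * ((x - x0) * (x - (x0 + a))) = 0 := by
        linear_combination h3 - h4 + (-(x ^ 3 - x0 ^ 3) - a * (x ^ 2 - x0 ^ 2) - a * x * x0 +
          a * x0 ^ 2 - 2 * a ^ 2 * (x - x0)) * h2
      rcases mul_eq_zero.1 h5 with h6 | h6
      · exact absurd h6 ha
      · rcases mul_eq_zero.1 h6 with h7 | h7
        · left
          exact sub_eq_zero.1 h7
        · right
          exact sub_eq_zero.1 h7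
    calc {x : K | (x + a) ^ 3 + x ^ 3 = b}.ncard ≤ ({x0, x0 + a} : Set K).ncard :=
          Set.ncard_le_ncard hsub (Set.toFinite _)
      _ ≤ 2 := Set.ncard_insert_le _ _ |>.trans (by rw [Set.ncard_singleton])

/-- every nonzero element is a difference of values of a map EA-equivalent to the cube -/
lemma all_differences (hK : Fintype.card K = 32) [CharP K 2] (g : K → K)
    (hg : EAEquivalent (fun x : K => x ^ 3) g) (c : K) (hc : c ≠ 0) :
    ∃ x y : K, g x - g y = c := by
  obtain ⟨A, B, C, ⟨A0, a0, hA⟩, hAb, ⟨B0, b0, hB⟩, hBb, ⟨C0, c0, hC⟩, hgx⟩ := hg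
  have hA0 : Function.Bijective A0 := by
    refine ⟨fun x y h => hAb.1 (by rw [hA, hA, h]), fun y => ?_⟩
    obtain ⟨x, hx⟩ := hAb.2 (y + a0)
    rw [hA] at hx
    exact ⟨x, add_right_cancel hx⟩
  have hB0 : Function.Bijective B0 := by
    refine ⟨fun x y h => hBb.1 (by rw [hB, hB, h]), fun y => ?_⟩
    obtain ⟨x, hx⟩ := hBb.2 (y + b0)
    rw [hB] at hx
    exact ⟨x, add_right_cancel hx⟩
  let eA : K ≃+ K := AddEquiv.ofBijective A0 hA0
  let eB : K ≃+ K := AddEquiv.ofBijective B0 hB0
  let L : K →+ K := (eA.symm.toAddMonoidHom.comp C0).comp eB.symm.toAddMonoidHom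
  have hL : ∀ b, A0 (L b) = C0 (eB.symm b) := by
    intro b
    show eA (eA.symm (C0 (eB.symm b))) = _
    rw [AddEquiv.apply_symm_apply]
  have ha : eA.symm c ≠ 0 := by
    intro h
    apply hc
    rw [← map_zero eA.symm] at h
    exact eA.symm.injective h
  obtain ⟨b, hb, x, hx⟩ := Pool.Agent.Q246.Cube32.main hK L (eA.symm c) ha
  obtain ⟨y1, hy1⟩ := hBb.2 (x + b)
  obtain ⟨y2, hy2⟩ := hBb.2 x
  refine ⟨y1, y2, ?_⟩
  have h1 : y1 - y2 = eB.symm b := by
    rw [AddEquiv.eq_symm_apply]
    show B0 (y1 - y2) = b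
    rw [map_sub]
    rw [hB] at hy1 hy2
    linear_combination hy1 - hy2
  have h2 : g y1 - g y2 = A0 ((x + b) ^ 3 - x ^ 3 + L b) := by
    rw [hgx, hgx, hy1, hy2, hA, hA, hC, hC, map_add, map_sub, hL, ← h1, map_sub]
    ring
  have h3 : (x + b) ^ 3 - x ^ 3 + L b = eA.symm c := by
    rw [CharTwo.sub_eq_add]
    exact hx
  rw [h2, h3]
  exact AddEquiv.apply_symm_apply eA c

omit [Fintype K] in
lemma reps_zero (R : Set K) : reps R 0 = R.ncard := by
  have h1 : {p : K × K | p.1 ∈ R ∧ p.2 ∈ R ∧ p.1 - p.2 = 0} = (fun x : K => (x, x)) '' R := by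
    ext ⟨x, y⟩
    constructor
    · rintro ⟨h1, h2, h3⟩
      refine ⟨x, h1, ?_⟩
      have : x = y := sub_eq_zero.1 h3
      rw [this]
    · rintro ⟨z, hz, h⟩
      obtain ⟨rfl, rfl⟩ := Prod.mk.inj h
      exact ⟨hz, hz, sub_self _⟩
  rw [reps, h1, Set.ncard_image_of_injective]
  intro x y h
  exact congrArg Prod.fst h

lemma sum_reps (R : Set K) : ∑ g : K, reps R g = R.ncard ^ 2 := by
  classical
  have h1 : ∀ g : K, reps R g =
      ((R.toFinset ×ˢ R.toFinset).filter (fun p : K × K => p.1 - p.2 = g)).card := by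
    intro g
    rw [reps, Set.ncard_eq_toFinset_card']
    congr 1
    ext p
    rw [Set.mem_toFinset, mem_filter, mem_product, Set.mem_toFinset, Set.mem_toFinset, and_assoc]
    rfl
  rw [sum_congr rfl (fun g _ => h1 g),
    ← card_eq_sum_card_fiberwise (f := fun p : K × K => p.1 - p.2)
      (s := R.toFinset ×ˢ R.toFinset) (t := univ) (fun p _ => mem_coe.2 (mem_univ _)),
    card_product, Set.ncard_eq_toFinset_card', sq]

theorem result :
    (∃ (K : Type) (_ : Field K) (_ : Fintype K), Fintype.card K = 2 ^ 5) ∧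
    ∀ (K : Type) [Field K] [Fintype K], Fintype.card K = 2 ^ 5 →
      APN (fun x : K => x ^ 3) ∧
      ∀ g : K → K, EAEquivalent (fun x : K => x ^ 3) g → ¬ GivesRDS g := by
  classical
  constructor
  · let _ : Fintype (GaloisField 2 5) := Fintype.ofFinite _
    refine ⟨GaloisField 2 5, inferInstance, inferInstance, ?_⟩
    rw [← Nat.card_eq_fintype_card]
    exact GaloisField.card 2 5 (by norm_num)
  · intro K _ _ hK
    have : Fact (Nat.Prime 2) := ⟨Nat.prime_two⟩
    have hchar : CharP K 2 := charP_of_card_eq_prime_pow hK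
    refine ⟨cube_apn, ?_⟩
    rintro g hg ⟨N, m, u, k, l, ⟨h1, h2, h3, h4, h5⟩, h6, h7⟩
    have hK' : Fintype.card K = 32 := by rw [hK]; norm_num
    have hdiff : ∀ c : K, c ≠ 0 → reps (Set.range g) c ≠ 0 := by
      intro c hc h0
      obtain ⟨x, y, hxy⟩ := all_differences hK' g hg c hc
      rw [reps, Set.ncard_eq_zero (Set.toFinite _)] at h0
      have : (g x, g y) ∈ {p : K × K | p.1 ∈ Set.range g ∧ p.2 ∈ Set.range g ∧ p.1 - p.2 = c} :=
        ⟨⟨x, rfl⟩, ⟨y, rfl⟩, hxy⟩
      rw [h0] at this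
      exact this
    have hN : ∀ c : K, c ∈ N → c = 0 := by
      intro c hc
      by_contra hne
      exact hdiff c hne (h5 c hc hne)
    have hl : ∀ c : K, c ≠ 0 → reps (Set.range g) c = l := by
      intro c hc
      apply h4
      intro hcN
      exact hc (hN c hcN)
    have hsum := sum_reps (Set.range g)
    rw [← add_sum_erase univ _ (mem_univ (0 : K)), reps_zero,
      sum_congr rfl (fun c hc => hl c (mem_erase.1 hc).1), sum_const,
      card_erase_of_mem (mem_univ _), card_univ, hK', h3, smul_eq_mul] at hsum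
    have hm : m * u = 32 := by rw [← h1, Nat.card_eq_fintype_card, hK']
    rw [hm] at h7
    have h8 : k * (k - 1) = 31 * l := by
      obtain ⟨j, rfl⟩ : ∃ j, k = j + 1 := ⟨k - 1, by omega⟩
      rw [Nat.add_sub_cancel]
      have h9 : (j + 1) ^ 2 = (j + 1) * j + (j + 1) := by ring
      omega
    have h9 : 31 ∣ k * (k - 1) := ⟨l, h8⟩
    rcases (Nat.Prime.dvd_mul (by norm_num : Nat.Prime 31)).1 h9 with h10 | h10
    · have := Nat.le_of_dvd (by omega) h10
      omega
    · have := Nat.le_of_dvd (by omega) h10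
      omega

end Pool.Agent.Results.MP_abc6c1_co.CubeFails
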